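import Pool.Agent.H26.REM.Targets

/-!
# CGI: the Frobenius congruence
-/

set_option autoImplicit false

open NumberField Height Finset Polynomial
open Pool.Agent.H26.REM

namespace Pool.Agent.H16.REM

section alg

variable {R A : Type} [CommRing R] [CommRing A] [Algebra R A]

/-- products of elements of a submodule -/
theorem prod_mem_pow {ι : Type*} (I : Submodule R A) (T : Finset ι) (y : ι → A)
    (h : ∀ i ∈ T, y i ∈ I) : ∏ i ∈ T, y i ∈ I ^ T.card := by
  classical
  induction T using Finset.induction_on with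
  | empty =>
    rw [Finset.prod_empty, Finset.card_empty, pow_zero]
    exact Submodule.one_le.mp le_rfl
  | insert j T hj ih =>
    rw [Finset.prod_insert hj, Finset.card_insert_of_notMem hj, pow_succ']
    exact Submodule.mul_mem_mul (h j (Finset.mem_insert_self _ _))
      (ih fun i hi => h i (Finset.mem_insert_of_mem hi))

/-- the power of a sum -/
theorem sum_pow_sub {ι : Type*} (I : Submodule R A) (p : ℕ) (hp : p.Prime) (T : Finset ι)
    (x : ι → A) (h : ∀ i ∈ T, x i ∈ I) :
    ∃ t ∈ I ^ p, (∑ i ∈ T, x i) ^ p = ∑ i ∈ T, x i ^ p + p * t := by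
  classical
  induction T using Finset.induction_on with
  | empty =>
    refine ⟨0, Submodule.zero_mem _, ?_⟩
    rw [Finset.sum_empty, Finset.sum_empty, zero_pow hp.ne_zero]
    simp
  | insert j T hj ih =>
    obtain ⟨t, ht, ht2⟩ := ih fun i hi => h i (Finset.mem_insert_of_mem hi)
    obtain ⟨a, ha⟩ : ∃ a, a = ∑ i ∈ T, x i := ⟨_, rfl⟩
    have haI : a ∈ I := by
      rw [ha]
      exact Submodule.sum_mem _ fun i hi => h i (Finset.mem_insert_of_mem hi)
    have hxj := h j (Finset.mem_insert_self _ _)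
    rw [← ha] at ht2
    rw [Finset.sum_insert hj, Finset.sum_insert hj, ← ha, add_pow_prime_eq hp, ht2]
    refine ⟨x j * a * ∑ k ∈ Finset.Ioo 0 p, x j ^ (k - 1) * a ^ (p - k - 1) *
      ((p.choose k / p : ℕ) : A) + t, ?_, by ring⟩
    apply Submodule.add_mem _ _ ht
    rw [Finset.mul_sum]
    apply Submodule.sum_mem
    intro k hk
    rw [Finset.mem_Ioo] at hk
    have h1 : x j * a * (x j ^ (k - 1) * a ^ (p - k - 1) * ((p.choose k / p : ℕ) : A)) =
        (p.choose k / p : ℕ) • (x j ^ k * a ^ (p - k)) := by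
      have e1 : x j ^ k = x j * x j ^ (k - 1) := by
        rw [← pow_succ']
        congr 1
        omega
      have e2 : a ^ (p - k) = a * a ^ (p - k - 1) := by
        rw [← pow_succ']
        congr 1
        omega
      rw [e1, e2, nsmul_eq_mul]
      ring
    rw [h1]
    apply Submodule.smul_of_tower_mem
    have h2 : I ^ p = I ^ k * I ^ (p - k) := by
      rw [← pow_add]
      congr 1
      omega
    rw [h2]
    exact Submodule.mul_mem_mul (Submodule.pow_mem_pow _ hxj _) (Submodule.pow_mem_pow _ haI _)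

/-- the powers of a finitely generated submodule of large exponent -/
theorem pow_le_of_pigeon {S : Type} [Fintype S] (Y : S → A) (p : ℕ) (hp : 1 ≤ p) :
    Submodule.span R (Set.range Y) ^ ((p - 1) * Fintype.card S + p) ≤
      Submodule.span R (Set.range Y) ^ ((p - 1) * Fintype.card S) *
        Submodule.span R (Set.range fun b => Y b ^ p) := by
  classical
  rw [Submodule.span_pow, Submodule.span_le]
  intro z hz
  rw [Set.mem_pow_iff_prod] at hz
  obtain ⟨f, hf, rfl⟩ := hz
  choose g hg using hf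
  -- pigeonhole
  obtain ⟨b, hb⟩ : ∃ b : S, p - 1 <
      (Finset.univ.filter fun i : Fin ((p - 1) * Fintype.card S + p) => g i = b).card := by
    by_contra hcon
    push Not at hcon
    have h1 := Finset.card_eq_sum_card_fiberwise (f := g)
      (s := (Finset.univ : Finset (Fin ((p - 1) * Fintype.card S + p))))
      (t := (Finset.univ : Finset S)) (fun _ _ => Finset.mem_coe.mpr (Finset.mem_univ _))
    rw [Finset.card_univ, Fintype.card_fin] at h1
    have h2 : ∑ b : S, (Finset.univ.filter
        fun i : Fin ((p - 1) * Fintype.card S + p) => g i = b).card ≤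
        ∑ _b : S, (p - 1) := Finset.sum_le_sum fun b _ => hcon b
    rw [Finset.sum_const, Finset.card_univ, smul_eq_mul] at h2
    have h3 : (p - 1) * Fintype.card S + p ≤ Fintype.card S * (p - 1) := by
      rw [← h1] at h2
      exact h2
    rw [mul_comm] at h3
    omega
  obtain ⟨T, hT, hTc⟩ := Finset.exists_subset_card_eq (show p ≤ (Finset.univ.filter
    fun i : Fin ((p - 1) * Fintype.card S + p) => g i = b).card by omega)
  have h4 : ∏ i, f i = (∏ i ∈ Tᶜ, f i) * Y b ^ p := by
    have h7 : ∏ i ∈ T, f i = Y b ^ T.card := by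
      rw [← Finset.prod_const]
      apply Finset.prod_congr rfl
      intro i hi
      rw [← hg i, (Finset.mem_filter.mp (hT hi)).2]
    rw [← Finset.prod_mul_prod_compl T f, h7, hTc, mul_comm]
  have h5 : ∏ i ∈ Tᶜ, f i ∈ Submodule.span R (Set.range Y) ^ ((p - 1) * Fintype.card S) := by
    have h6 := prod_mem_pow (Submodule.span R (Set.range Y)) Tᶜ f (fun i _ => by
      apply Submodule.subset_span
      exact ⟨g i, hg i⟩)
    rwa [Finset.card_compl, Fintype.card_fin, hTc, Nat.add_sub_cancel] at h6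
  rw [SetLike.mem_coe, h4]
  exact Submodule.mul_mem_mul h5 (Submodule.subset_span ⟨b, rfl⟩)

end alg

/-- the `p`-th power of a fractional ideal is generated by the `p`-th powers of generators -/
theorem span_pow_eq {M : Type} [Field M] [NumberField M] {S : Type} [Fintype S] (Y : S → M)
    (hY : Y ≠ 0) (p : ℕ) (hp : 1 ≤ p) :
    Submodule.span (𝓞 M) (Set.range Y) ^ p =
      Submodule.span (𝓞 M) (Set.range fun b => Y b ^ p) := by
  classical
  obtain ⟨N, hN⟩ : ∃ N, N = (p - 1) * Fintype.card S := ⟨_, rfl⟩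
  obtain ⟨I, hI⟩ : ∃ I : FractionalIdeal (nonZeroDivisors (𝓞 M)) M,
      I = FractionalIdeal.spanFinset (𝓞 M) Finset.univ Y := ⟨_, rfl⟩
  obtain ⟨J, hJ⟩ : ∃ J : FractionalIdeal (nonZeroDivisors (𝓞 M)) M,
      J = FractionalIdeal.spanFinset (𝓞 M) Finset.univ (fun b => Y b ^ p) := ⟨_, rfl⟩
  have hIc : (I : Submodule (𝓞 M) M) = Submodule.span (𝓞 M) (Set.range Y) := by
    rw [hI, FractionalIdeal.spanFinset_coe, Finset.coe_univ, Set.image_univ]
  have hJc : (J : Submodule (𝓞 M) M) =
      Submodule.span (𝓞 M) (Set.range fun b => Y b ^ p) := by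
    rw [hJ, FractionalIdeal.spanFinset_coe, Finset.coe_univ, Set.image_univ]
  have hI0 : I ≠ 0 := by
    rw [hI, FractionalIdeal.spanFinset_ne_zero]
    by_contra hcon
    push Not at hcon
    exact hY (funext fun b => hcon b (Finset.mem_univ _))
  have hle : J ≤ I ^ p := by
    rw [← FractionalIdeal.coe_le_coe, FractionalIdeal.coe_pow, hIc, hJc, Submodule.span_le]
    rintro _ ⟨b, rfl⟩
    exact Submodule.pow_mem_pow _ (Submodule.subset_span (Set.mem_range_self b)) _
  have hle2 : I ^ N * I ^ p ≤ I ^ N * J := by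
    rw [← FractionalIdeal.coe_le_coe, ← pow_add, FractionalIdeal.coe_mul, FractionalIdeal.coe_pow,
      FractionalIdeal.coe_pow, hIc, hJc, hN]
    exact pow_le_of_pigeon Y p hp
  have heq : I ^ N * I ^ p = I ^ N * J :=
    le_antisymm hle2 (mul_le_mul_right hle _)
  have h3 : I ^ p = J := mul_left_cancel₀ (pow_ne_zero N hI0) heq
  rw [← hIc, ← hJc, ← h3, FractionalIdeal.coe_pow]

theorem pf_CGI : T_CGI := by
  classical
  intro K M _ _ _ _ _ φ p hp hφ S _ Y c hc
  by_cases hY : Y = 0
  · refine ⟨0, Submodule.zero_mem _, ?_⟩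
    show ∑ b, algebraMap K M (φ (c b : K)) * Y b ^ p = p * 0
    rw [mul_zero]
    apply Finset.sum_eq_zero
    intro b _
    rw [hY, Pi.zero_apply, zero_pow hp.ne_zero, mul_zero]
  -- integers of `K` in `M`
  have hint : ∀ a : 𝓞 K, ∃ e : 𝓞 M, (e : M) = algebraMap K M (a : K) := by
    intro a
    have h1 : IsIntegral ℤ (algebraMap K M (a : K)) :=
      (RingOfIntegers.isIntegral_coe a).map (Algebra.ofId K M |>.restrictScalars ℤ)
    exact ⟨⟨_, h1⟩, rfl⟩
  choose e he using hint
  choose d hd using fun b => hφ (c b)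
  obtain ⟨x, hx⟩ : ∃ x : S → M, x = fun b => algebraMap K M (c b : K) * Y b := ⟨_, rfl⟩
  have hxI : ∀ b ∈ (Finset.univ : Finset S), x b ∈ Submodule.span (𝓞 M) (Set.range Y) := by
    intro b _
    rw [hx]
    show algebraMap K M (c b : K) * Y b ∈ _
    rw [← he (c b)]
    exact Submodule.smul_mem _ (e (c b)) (Submodule.subset_span ⟨b, rfl⟩)
  obtain ⟨t, ht, ht2⟩ := sum_pow_sub (Submodule.span (𝓞 M) (Set.range Y)) p hp Finset.univ x hxI
  have hsum : ∑ b, x b = 0 := by
    rw [hx]
    exact hc
  rw [hsum, zero_pow hp.ne_zero] at ht2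
  rw [span_pow_eq Y hY p hp.one_le] at ht
  refine ⟨∑ b, algebraMap K M (d b : K) * Y b ^ p - t, ?_, ?_⟩
  · show _ ∈ Submodule.span (𝓞 M) (Set.range fun b => Y b ^ p)
    apply Submodule.sub_mem _ _ ht
    apply Submodule.sum_mem
    intro b _
    rw [← he (d b)]
    exact Submodule.smul_mem _ (e (d b)) (Submodule.subset_span ⟨b, rfl⟩)
  · show ∑ b, algebraMap K M (φ (c b : K)) * Y b ^ p = _
    have h1 : ∀ b, algebraMap K M (φ (c b : K)) * Y b ^ p =
        x b ^ p + p * (algebraMap K M (d b : K) * Y b ^ p) := by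
      intro b
      rw [hd b, map_add, map_mul, map_pow, map_natCast, hx]
      ring
    rw [Finset.sum_congr rfl fun b _ => h1 b, Finset.sum_add_distrib, ← Finset.mul_sum]
    linear_combination -ht2

end Pool.Agent.H16.REM
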