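import Pool.Agent.H26.REM.Targets

/-!
# GHT: the height of the tuple of the small monomials
-/

set_option autoImplicit false

open NumberField Height Finset Polynomial
open Pool.Agent.H26.REM

namespace Pool.Agent.H16.REM

section one

variable {M : Type} [Field M] [NumberField M]

/-- the height of the powers of a number -/
theorem height_powers (t : M) (n : ℕ) :
    logHeight (fun l : Fin n => t ^ (l : ℕ)) ≤ n * logHeight₁ t := by
  have h1 : (fun l : Fin n => t ^ (l : ℕ)) =
      (fun I : Fin n → Fin 2 => ∏ a, (![t, 1] : Fin 2 → M) (I a)) ∘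
        (fun (l : Fin n) (a : Fin n) => if a < l then (0 : Fin 2) else 1) := by
    funext l
    rw [Function.comp_apply]
    have h2 : ∀ a : Fin n, (![t, 1] : Fin 2 → M) (if a < l then (0 : Fin 2) else 1) =
        if a < l then t else 1 := by
      intro a
      by_cases h : a < l
      · rw [if_pos h, if_pos h]
        rfl
      · rw [if_neg h, if_neg h]
        rfl
    rw [Finset.prod_congr rfl (fun a _ => h2 a), Finset.prod_ite, Finset.prod_const,
      Finset.prod_const_one, mul_one]
    congr 1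
    rw [Finset.filter_gt_eq_Iio]
    exact (Fin.card_Iio l).symm
  rw [h1]
  refine (logHeight_comp_le _ _).trans ?_
  have h3 : ∀ a : Fin n, (![t, 1] : Fin 2 → M) ≠ 0 := by
    intro _ h
    have := congrFun h 1
    simp at this
  have h4 := logHeight_fun_prod_eq (α := Fin n) (ι := fun _ => Fin 2)
    (x := fun _ => (![t, 1] : Fin 2 → M)) h3
  rw [h4, Finset.sum_const, Finset.card_univ, Fintype.card_fin, nsmul_eq_mul,
    ← logHeight₁_eq_logHeight]

/-- the height of the powers of a root of unity -/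
theorem height_root (ζ : M) (m : ℕ) (hm : 0 < m) (h : ζ ^ m = 1) :
    logHeight (fun l : Fin m => ζ ^ (l : ℕ)) = 0 := by
  have h1 : (fun l : Fin m => ζ ^ (l : ℕ)) ^ m = 1 := by
    funext l
    rw [Pi.pow_apply, Pi.one_apply, ← pow_mul, mul_comm, pow_mul, h, one_pow]
  have h2 := logHeight_pow (fun l : Fin m => ζ ^ (l : ℕ)) m
  rw [h1, logHeight_one] at h2
  have h3 : (m : ℝ) ≠ 0 := by exact_mod_cast hm.ne'
  exact (mul_eq_zero.mp h2.symm).resolve_left h3

end one

theorem pf_GHT : T_GHT := by
  intro M _ _ r m N ζ θ hm hN hζ hθ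
  have hζ0 : ζ ≠ 0 := by
    intro h
    rw [h, zero_pow hm.ne'] at hζ
    exact zero_ne_one hζ
  have hx : (fun l : Fin m => ζ ^ (l : ℕ)) ≠ 0 := by
    intro h
    have h1 := congrFun h ⟨0, hm⟩
    simp at h1
  have hθn : ∀ i : Fin r, (fun l : Fin (N i) => θ i ^ (l : ℕ)) ≠ 0 := by
    intro i h
    have h1 := congrFun h ⟨0, hN i⟩
    simp at h1
  have hy : (fun f : (∀ i, Fin (N i)) => ∏ i, θ i ^ (f i : ℕ)) ≠ 0 := by
    intro h
    have h1 := congrFun h (fun i => ⟨0, hN i⟩)
    simp at h1
  rw [logHeight_fun_mul_eq hx hy, height_root ζ m hm hζ, zero_add,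
    logHeight_fun_prod_eq (α := Fin r) (ι := fun i => Fin (N i))
      (x := fun i (l : Fin (N i)) => θ i ^ (l : ℕ)) hθn]
  exact Finset.sum_le_sum fun i _ => height_powers (θ i) (N i)

end Pool.Agent.H16.REM
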